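import Pool.Agent.Y19.TP.Stm2

/-!
# Discreteness of the norm on finite extensions of `ℚ_p` (helper293, job TP-DSC of helper19)
-/

set_option autoImplicit false

namespace Pool.Agent.Y293.TP

open Polynomial

theorem t_DSC : Pool.Agent.Y19.TP.DSC := by
  intro p _ L n hfin hn a ha h1
  haveI := hfin
  obtain ⟨m, hm⟩ : ∃ m, m = (minpoly ℚ_[p] a).natDegree := ⟨_, rfl⟩
  obtain ⟨c, hc⟩ : ∃ c, c = (minpoly ℚ_[p] a).coeff 0 := ⟨_, rfl⟩
  have hint : IsIntegral ℚ_[p] a := Algebra.IsIntegral.isIntegral a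
  have hm0 : 0 < m := by rw [hm]; exact minpoly.natDegree_pos hint
  have h2 : ‖a‖ = ‖c‖ ^ (1 / m : ℝ) := by
    have h := spectralNorm.spectralNorm_eq_norm_coeff_zero_rpow (K := ℚ_[p])
      (L := PadicAlgCl p) a
    rw [PadicAlgCl.spectralNorm_eq] at h
    rw [h, hm, hc]
  have h3 : ‖a‖ ^ m = ‖c‖ := by
    rw [h2, ← Real.rpow_natCast, ← Real.rpow_mul (norm_nonneg c), one_div,
      inv_mul_cancel₀ (by exact_mod_cast hm0.ne'), Real.rpow_one]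
  have h4 : ‖c‖ < 1 := by
    rw [← h3]
    exact pow_lt_one₀ (norm_nonneg a) h1 hm0.ne'
  have h5 : ‖c‖ ≤ (p : ℝ) ^ (-1 : ℤ) := by
    rw [Padic.norm_le_pow_iff_norm_lt_pow_add_one]
    simpa using h4
  have h6 : m ≤ n := by
    refine le_trans ?_ hn
    have h7 : minpoly ℚ_[p] a = minpoly ℚ_[p] (⟨a, ha⟩ : L) := by
      have h8 := minpoly.algebraMap_eq (A := ℚ_[p]) (B := L) (B' := PadicAlgCl p)
        (algebraMap L (PadicAlgCl p)).injective (⟨a, ha⟩ : L)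
      exact h8
    rw [hm, h7]
    exact minpoly.natDegree_le (⟨a, ha⟩ : L)
  have h7 : ‖(p : PadicAlgCl p)‖ = (p : ℝ) ^ (-1 : ℤ) := by
    have h8 := PadicAlgCl.norm_extends p (p : ℚ_[p])
    rw [map_natCast] at h8
    rw [h8, Padic.norm_p, zpow_neg_one]
  rw [h7]
  calc ‖a‖ ^ n ≤ ‖a‖ ^ m := pow_le_pow_of_le_one (norm_nonneg a) h1.le h6
    _ = ‖c‖ := h3
    _ ≤ (p : ℝ) ^ (-1 : ℤ) := h5

end Pool.Agent.Y293.TP
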